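import Mathlib

/-!
# Hypersimplex h*-vectors: definitions shared by the modules `HS/*`

Names: `inl p` is the light leaf `x_p` (`0 ≤ p ≤ n`), and also the node variable of the light
node `p` (`1 ≤ p ≤ n`); `inr s` is the unit leaf `z_s` of the slot `s`, and also the node variable
of the unit node `s` (`1 ≤ s ≤ n - 1`).
-/

set_option autoImplicit false

namespace Pool.Agent.HS

open MvPolynomial Finset

/-- polynomials all of whose monomials `m` satisfy `m ≤ d` and have total degree `D` -/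
noncomputable def Box {σ : Type*} (d : σ →₀ ℕ) (D : ℤ) : Submodule ℝ (MvPolynomial σ ℝ) :=
  MvPolynomial.restrictSupport ℝ {m | m ≤ d ∧ ((Finsupp.degree m : ℕ) : ℤ) = D}

/-- number of exponent vectors `m ≤ d` of total degree `D` -/
noncomputable def cnt {σ : Type*} (d : σ →₀ ℕ) (D : ℤ) : ℕ :=
  Set.ncard {m : σ →₀ ℕ | m ≤ d ∧ ((Finsupp.degree m : ℕ) : ℤ) = D}

/-- the derivation `∑ ∂/∂x` -/
noncomputable def E {σ : Type*} : Module.End ℝ (MvPolynomial σ ℝ) :=
  (MvPolynomial.mkDerivation ℝ (fun _ : σ => (1 : MvPolynomial σ ℝ))).toLinearMap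

abbrev Name := ℕ ⊕ ℕ

/-- degree bound `a` on the light variables `x_0, ..., x_n` -/
noncomputable def dx (n a : ℕ) : Name →₀ ℕ :=
  ∑ p ∈ range (n + 1), Finsupp.single (Sum.inl p) a

/-- degree bound `a` on the unit variables `z_1, ..., z_ν` -/
noncomputable def dz (ν a : ℕ) : Name →₀ ℕ :=
  ∑ s ∈ range ν, Finsupp.single (Sum.inr (s + 1)) a

/-- translation invariant multi-affine forms of degree `P` in `x_0, ..., x_n` -/
noncomputable def R1 (n : ℕ) (P : ℤ) : Submodule ℝ (MvPolynomial Name ℝ) :=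
  Box (dx n 1) P ⊓ LinearMap.ker E

/-- the module `B'` (with unit variables), degree `b` part -/
noncomputable def Bp (n ν : ℕ) (P K : ℤ) (b : ℕ) : Submodule ℝ (MvPolynomial Name ℝ) :=
  if b = 0 then ⊥ else Box (dx n (b - 1) + dz ν 1) (b * P - K) ⊓ LinearMap.ker E

/-- the module `B` (without unit variables), degree `b` part -/
noncomputable def Md (n ν : ℕ) (P K : ℤ) (b : ℕ) : Submodule ℝ (MvPolynomial Name ℝ) :=
  if b = 0 then ⊥ else Box (dx n (b - 1)) (b * P - K) ⊓ LinearMap.ker (E ^ (ν + 1))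

/-- sum of the images of `M b` under the operators `θ i` -/
noncomputable def img {V : Type*} [AddCommGroup V] [Module ℝ V] {n : ℕ}
    (θ : Fin n → Module.End ℝ V) (M : ℕ → Submodule ℝ V) (b : ℕ) : Submodule ℝ V :=
  ⨆ i, (M b).map (θ i)

/-- number of new generators in degree `b` -/
noncomputable def gnum {V : Type*} [AddCommGroup V] [Module ℝ V] {n : ℕ}
    (θ : Fin n → Module.End ℝ V) (M : ℕ → Submodule ℝ V) (b : ℕ) : ℤ :=
  (Module.finrank ℝ (M b) : ℤ) - Module.finrank ℝ (img θ M (b - 1))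

/-- multiplication operators -/
noncomputable def mulOp {n : ℕ} (θ : Fin n → MvPolynomial Name ℝ) (i : Fin n) :
    Module.End ℝ (MvPolynomial Name ℝ) := LinearMap.mulLeft ℝ (θ i)

/-! ## explicit labels of the cherry tree -/

section labels

variable {R : Type*} [Ring R]

/-- label of the cluster `i` (a cherry `{x_{2i}, x_{2i+1}}`, or the single leaf `x_{2i}` if
`2 i = n`); `a` is the label of a light leaf -/
def cl (n : ℕ) (a : R) (k : ℕ → R) (i : ℕ) : R :=
  if 2 * i + 1 ≤ n then 2 * a - 2 * k (2 * i + 1) else a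

/-- label of the spine edge `i` (before the unit leaf of slot `2 i + 1`); `η s` is the jump at the
slot `s` : slot `2 i + 1` is on the spine edge `i`, slot `2 i + 2` on the edge of the cluster
`i + 1` -/
def sp (n : ℕ) (a : R) (η k : ℕ → R) : ℕ → R
  | 0 => cl n a k 0
  | i + 1 => (sp n a η k i + η (2 * i + 1)) + (cl n a k (i + 1) + η (2 * i + 2))
      - 2 * k (2 * i + 2)

/-- admissibility at all light nodes -/
def Val [LE R] (n : ℕ) (a : R) (η k : ℕ → R) : Prop :=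
  (∀ i, 2 * i + 1 ≤ n → 0 ≤ k (2 * i + 1) ∧ k (2 * i + 1) ≤ a) ∧
  (∀ i, 2 * i + 2 ≤ n → 0 ≤ k (2 * i + 2) ∧ k (2 * i + 2) ≤ sp n a η k i + η (2 * i + 1) ∧
    k (2 * i + 2) ≤ cl n a k (i + 1) + η (2 * i + 2))

end labels

/-- coordinates `1, ..., n` as a function on `ℕ` -/
def ext {R : Type*} [Zero R] {n : ℕ} (k : Fin n → R) : ℕ → R
  | 0 => 0
  | p + 1 => if h : p < n then k ⟨p, h⟩ else 0

/-- the jumps: `-1` on `Z`, `1` on `{1, ..., ν} \ Z`, `0` elsewhere -/
def jump (ν : ℕ) (Z : Finset ℕ) (s : ℕ) : ℤ :=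
  if s ∈ Z then -1 else if 1 ≤ s ∧ s ≤ ν then 1 else 0

/-- admissible integer vectors of a slice -/
def XS (n ν : ℕ) (P K : ℤ) (Z : Finset ℕ) (b : ℕ) : Set (Fin n → ℤ) :=
  {k | Val n ((b : ℤ) - 1) (jump ν Z) (ext k) ∧ ∑ u, k u = b * P - K - Z.card}

/-- the degree one vectors -/
def WS (n : ℕ) (P : ℤ) : Set (Fin n → ℤ) :=
  {k | Val n (1 : ℤ) (fun _ => 0) (ext k) ∧ ∑ u, k u = P}

/-- real cone generated by a finite set of integer vectors -/
def cone {n : ℕ} (W : Finset (Fin n → ℤ)) : Set (Fin n → ℝ) :=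
  {z | ∃ c : (Fin n → ℤ) → ℝ, (∀ w ∈ W, 0 ≤ c w) ∧ ∀ u, z u = ∑ w ∈ W, c w * (w u : ℝ)}

/-- parameters: `ν` unit leaves, shift `K` -/
def Good (n ν K : ℕ) : Prop :=
  (ν + 2 * K = n ∧ 1 ≤ K) ∨ (ν + 2 * K = n + 1 ∧ 2 ≤ K)

/-- exponent vector of the limit monomial -/
noncomputable def expo {n : ℕ} (k : Fin n → ℤ) (Z : Finset ℕ) : Name →₀ ℕ :=
  ∑ u : Fin n, Finsupp.single (Sum.inl (u.1 + 1)) (k u).toNat
    + ∑ s ∈ Z, Finsupp.single (Sum.inr s) 1

end Pool.Agent.HS
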